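import Pool.Agent.Y432.F4.Rep

/-!
# Four-dimensional reptile simplices: two infinite families of piece numbers

The fundamental alcove of the affine Coxeter group of type `F₄` is a `k`-reptile simplex for every
`k = m⁴` and every `k = 4 m⁴`. In particular there are infinitely many `k`, not fourth powers, for
which a four-dimensional `k`-reptile simplex exists.
-/

set_option autoImplicit false

namespace Pool.Agent.Results.MP_9fc4df_co.TwoFamilies

open Pool.Agent.Results.MP_9fc4df_co.F4Alcove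

/-- `4 m⁴` is not a fourth power -/
lemma four_mul_ne (m : ℕ) (hm : 1 ≤ m) (n : ℕ) : 4 * m ^ 4 ≠ n ^ 4 := by
  intro h
  have hn : n ≠ 0 := by
    rintro rfl
    have : 0 < m ^ 4 := by positivity
    simp at h
    omega
  have h1 : (4 * m ^ 4).factorization 2 = 2 + 4 * m.factorization 2 := by
    rw [Nat.factorization_mul (by norm_num) (by positivity), Nat.factorization_pow]
    have : (4 : ℕ) = 2 ^ 2 := by norm_num
    rw [this, Nat.Prime.factorization_pow Nat.prime_two]
    simp
  have h2 : (n ^ 4).factorization 2 = 4 * n.factorization 2 := by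
    rw [Nat.factorization_pow]
    simp
  rw [h, h2] at h1
  omega

/-- **Two families of four-dimensional reptile simplices.** There is a single four-dimensional
simplex that is an `m⁴`-reptile and a `4m⁴`-reptile for every `m ≥ 1`. No `4m⁴` is a fourth power,
so there are infinitely many `k` which are not fourth powers and for which a four-dimensional
`k`-reptile simplex exists; in particular the conjecture of Q1 fails. -/
theorem result :
    (∃ s : Affine.Simplex ℝ (EuclideanSpace ℝ (Fin 4)) 4,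
      ∀ m : ℕ, 1 ≤ m → IsReptile 4 (m ^ 4) s ∧ IsReptile 4 (4 * m ^ 4) s) ∧
    (∀ m : ℕ, 1 ≤ m → ∀ n : ℕ, 4 * m ^ 4 ≠ n ^ 4) ∧
    {k : ℕ | (∃ s, IsReptile 4 k s) ∧ ∀ m : ℕ, k ≠ m ^ 4}.Infinite ∧
    (∃ d k : ℕ, 4 ≤ d ∧ (∃ s, IsReptile d k s) ∧ ∀ m : ℕ, k ≠ m ^ d) := by
  refine ⟨⟨big, fun m hm => ⟨Y432.F4.rep1 m hm, Y432.F4.rep2 m hm⟩⟩, four_mul_ne, ?_, ?_⟩
  · apply Set.infinite_of_injective_forall_mem (f := fun m : ℕ => 4 * (m + 1) ^ 4)
    · intro a b hab
      have h1 : (a + 1) ^ 4 = (b + 1) ^ 4 := by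
        have : 4 * (a + 1) ^ 4 = 4 * (b + 1) ^ 4 := hab
        omega
      have h2 := Nat.pow_left_injective (n := 4) (by norm_num) h1
      omega
    · intro m
      exact ⟨⟨big, Y432.F4.rep2 (m + 1) (by omega)⟩, four_mul_ne (m + 1) (by omega)⟩
  · refine ⟨4, 4 * 1 ^ 4, le_rfl, ⟨big, Y432.F4.rep2 1 le_rfl⟩, four_mul_ne 1 le_rfl⟩

end Pool.Agent.Results.MP_9fc4df_co.TwoFamilies
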